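import Pool.Agent.MNW.StmtsT

set_option autoImplicit false

/-!
# MNW, row NU4: the numerical conditions for `m = 11`, `g ≥ 4`
-/

namespace Pool.Agent.MNW.H32.Nu4

open Pool.Agent.MNW

/-- `A` as a function of `n = 2 g + 2` -/
noncomputable def Af (n : ℝ) : ℝ := (119 * n ^ 2 + 370 * n) / 1000

/-- `k` as a function of `n` -/
noncomputable def kf (n : ℝ) : ℝ := (27 * n ^ 2 - 52 * n + 52) / 1000

/-- `ed` with `z = b - y` -/
noncomputable def er (n a b z : ℝ) : ℝ :=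
  69 / 25 * a ^ 2 - 11 / 2 * a + 2 / 25 * a * (2 * b - z) +
    ((n ^ 2 - n) / 2 - Af n) / 10 * b * (b - 1) +
    z * (Af n - (n - 1) * a / 2 - 4 * kf n * b + 3 * kf n * z)

theorem ed_eq (g : ℕ) (a b y : ℝ) :
    ed g 11 (Af (2 * g + 2)) (137 / 50) (((2 * g + 2 : ℝ) - 1) / 2 + 2 / 25) (kf (2 * g + 2)) a b y =
      er (2 * g + 2) a b (b - y) := by
  unfold ed w1 w0 gm qf er Af kf
  push_cast
  ring

/-- the case `b = 1` -/
theorem ev1 (x y z : ℝ) (hx : 0 ≤ x) (hy : 0 ≤ y) (hz : 0 ≤ z) :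
    1 / 30 ≤ er (10 + x) (2 + y) 1 z := by
  have hP : 0 ≤ 8053 / 12500 * x ^ 2 * y ^ 2 + 1028 / 625 * x ^ 2 * y + 16259 / 250000 * x ^ 2 + 72391 / 6250 * x * y ^ 2 + 363011 / 12500 * x * y + 28369 / 31250 * x + 661843 / 12500 * y ^ 2 + 405871 / 3125 * y + 39989 / 15625 := by
    positivity
  have hk : 0 < 27 / 1000 * x ^ 2 + 61 / 125 * x + 279 / 125 := by positivity
  have hE : 0 ≤ 11 / 1000 * x ^ 2 := by positivity
  have h : 12 * (27 / 1000 * x ^ 2 + 61 / 125 * x + 279 / 125) * (er (10 + x) (2 + y) 1 z - 1 / 30 - (11 / 1000 * x ^ 2) * z) =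
      (6 * (27 / 1000 * x ^ 2 + 61 / 125 * x + 279 / 125) * z - (1 / 2 * x * y + 101 / 500 * x + 229 / 50 * y + 311 / 125)) ^ 2 +
      (8053 / 12500 * x ^ 2 * y ^ 2 + 1028 / 625 * x ^ 2 * y + 16259 / 250000 * x ^ 2 + 72391 / 6250 * x * y ^ 2 + 363011 / 12500 * x * y + 28369 / 31250 * x + 661843 / 12500 * y ^ 2 + 405871 / 3125 * y + 39989 / 15625) := by
    unfold er Af kf
    ring
  have h3 : 0 ≤ er (10 + x) (2 + y) 1 z - 1 / 30 - (11 / 1000 * x ^ 2) * z := by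
    refine (mul_nonneg_iff_of_pos_left (mul_pos (by norm_num : (0 : ℝ) < 12) hk)).1 ?_
    rw [h]
    exact add_nonneg (sq_nonneg _) hP
  have h4 := mul_nonneg hE hz
  linarith

/-- the case `b = 2` -/
theorem ev2 (x y z : ℝ) (hx : 0 ≤ x) (_hy : 0 ≤ y) (_hz : 0 ≤ z) :
    1 / 30 ≤ er (10 + x) (2 + y) 2 z := by
  have h2 : 0 < 8053 / 12500 * x ^ 2 + 72391 / 6250 * x + 661843 / 12500 := by positivity
  have hD : 0 ≤ 234112761 / 7812500000 * x ^ 6 + 6586821459 / 3906250000 * x ^ 5 + 146634803859 / 3906250000 * x ^ 4 + 412324901051 / 976562500 * x ^ 3 + 2436152336797 / 976562500 * x ^ 2 + 345005706736 / 48828125 * x + 326047681278 / 48828125 := by positivity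
  have hQ : 4 * (8053 / 12500 * x ^ 2 + 72391 / 6250 * x + 661843 / 12500) * (76399 / 5000000 * x ^ 4 + (-97 / 1000) * x ^ 3 * y + 582189 / 1250000 * x ^ 3 + 8053 / 12500 * x ^ 2 * y ^ 2 + (-28597 / 25000) * x ^ 2 * y + 6508451 / 1250000 * x ^ 2 + 72391 / 6250 * x * y ^ 2 + 39619 / 12500 * x * y + 787451 / 31250 * x + 661843 / 12500 * y ^ 2 + 163699 / 3125 * y + 695081 / 15625) =
      (2 * (8053 / 12500 * x ^ 2 + 72391 / 6250 * x + 661843 / 12500) * y + ((-97 / 1000) * x ^ 3 + (-28597 / 25000) * x ^ 2 + 39619 / 12500 * x + 163699 / 3125)) ^ 2 +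
      (234112761 / 7812500000 * x ^ 6 + 6586821459 / 3906250000 * x ^ 5 + 146634803859 / 3906250000 * x ^ 4 + 412324901051 / 976562500 * x ^ 3 + 2436152336797 / 976562500 * x ^ 2 + 345005706736 / 48828125 * x + 326047681278 / 48828125) := by ring
  have hP : 0 ≤ 76399 / 5000000 * x ^ 4 + (-97 / 1000) * x ^ 3 * y + 582189 / 1250000 * x ^ 3 + 8053 / 12500 * x ^ 2 * y ^ 2 + (-28597 / 25000) * x ^ 2 * y + 6508451 / 1250000 * x ^ 2 + 72391 / 6250 * x * y ^ 2 + 39619 / 12500 * x * y + 787451 / 31250 * x + 661843 / 12500 * y ^ 2 + 163699 / 3125 * y + 695081 / 15625 := by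
    refine (mul_nonneg_iff_of_pos_left (mul_pos four_pos h2)).1 ?_
    rw [hQ]
    exact add_nonneg (sq_nonneg _) hD
  have hk : 0 < 27 / 1000 * x ^ 2 + 61 / 125 * x + 279 / 125 := by positivity
  have h : 12 * (27 / 1000 * x ^ 2 + 61 / 125 * x + 279 / 125) * (er (10 + x) (2 + y) 2 z - 1 / 30) =
      (6 * (27 / 1000 * x ^ 2 + 61 / 125 * x + 279 / 125) * z - (97 / 1000 * x ^ 2 + 1 / 2 * x * y + 1077 / 500 * x + 229 / 50 * y + 1427 / 125)) ^ 2 +
      (76399 / 5000000 * x ^ 4 + (-97 / 1000) * x ^ 3 * y + 582189 / 1250000 * x ^ 3 + 8053 / 12500 * x ^ 2 * y ^ 2 + (-28597 / 25000) * x ^ 2 * y + 6508451 / 1250000 * x ^ 2 + 72391 / 6250 * x * y ^ 2 + 39619 / 12500 * x * y + 787451 / 31250 * x + 661843 / 12500 * y ^ 2 + 163699 / 3125 * y + 695081 / 15625) := by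
    unfold er Af kf
    ring
  have h3 : 0 ≤ er (10 + x) (2 + y) 2 z - 1 / 30 := by
    refine (mul_nonneg_iff_of_pos_left (mul_pos (by norm_num : (0 : ℝ) < 12) hk)).1 ?_
    rw [h]
    exact add_nonneg (sq_nonneg _) hP
  linarith

/-- the case `b = 3` -/
theorem ev3 (x y z : ℝ) (hx : 0 ≤ x) (_hy : 0 ≤ y) (_hz : 0 ≤ z) :
    1 / 30 ≤ er (10 + x) (2 + y) 3 z := by
  have h2 : 0 < 8053 / 12500 * x ^ 2 + 72391 / 6250 * x + 661843 / 12500 := by positivity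
  have hD : 0 ≤ 316753173 / 7812500000 * x ^ 6 + 9077466087 / 3906250000 * x ^ 5 + 209071323357 / 3906250000 * x ^ 4 + 155155578482 / 244140625 * x ^ 3 + 3996894805141 / 976562500 * x ^ 2 + 656347434346 / 48828125 * x + 842869836918 / 48828125 := by positivity
  have hQ : 4 * (8053 / 12500 * x ^ 2 + 72391 / 6250 * x + 661843 / 12500) * (160207 / 5000000 * x ^ 4 + (-41 / 200) * x ^ 3 * y + 1209277 / 1250000 * x ^ 3 + 8053 / 12500 * x ^ 2 * y ^ 2 + (-100833 / 25000) * x ^ 2 * y + 13334883 / 1250000 * x ^ 2 + 72391 / 6250 * x * y ^ 2 + (-283773 / 12500) * x * y + 1574091 / 31250 * x + 661843 / 12500 * y ^ 2 + (-78473 / 3125) * y + 1320041 / 15625) =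
      (2 * (8053 / 12500 * x ^ 2 + 72391 / 6250 * x + 661843 / 12500) * y + ((-41 / 200) * x ^ 3 + (-100833 / 25000) * x ^ 2 + (-283773 / 12500) * x + (-78473 / 3125))) ^ 2 +
      (316753173 / 7812500000 * x ^ 6 + 9077466087 / 3906250000 * x ^ 5 + 209071323357 / 3906250000 * x ^ 4 + 155155578482 / 244140625 * x ^ 3 + 3996894805141 / 976562500 * x ^ 2 + 656347434346 / 48828125 * x + 842869836918 / 48828125) := by ring
  have hP : 0 ≤ 160207 / 5000000 * x ^ 4 + (-41 / 200) * x ^ 3 * y + 1209277 / 1250000 * x ^ 3 + 8053 / 12500 * x ^ 2 * y ^ 2 + (-100833 / 25000) * x ^ 2 * y + 13334883 / 1250000 * x ^ 2 + 72391 / 6250 * x * y ^ 2 + (-283773 / 12500) * x * y + 1574091 / 31250 * x + 661843 / 12500 * y ^ 2 + (-78473 / 3125) * y + 1320041 / 15625 := by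
    refine (mul_nonneg_iff_of_pos_left (mul_pos four_pos h2)).1 ?_
    rw [hQ]
    exact add_nonneg (sq_nonneg _) hD
  have hk : 0 < 27 / 1000 * x ^ 2 + 61 / 125 * x + 279 / 125 := by positivity
  have h : 12 * (27 / 1000 * x ^ 2 + 61 / 125 * x + 279 / 125) * (er (10 + x) (2 + y) 3 z - 1 / 30) =
      (6 * (27 / 1000 * x ^ 2 + 61 / 125 * x + 279 / 125) * z - (41 / 200 * x ^ 2 + 1 / 2 * x * y + 2053 / 500 * x + 229 / 50 * y + 2543 / 125)) ^ 2 +
      (160207 / 5000000 * x ^ 4 + (-41 / 200) * x ^ 3 * y + 1209277 / 1250000 * x ^ 3 + 8053 / 12500 * x ^ 2 * y ^ 2 + (-100833 / 25000) * x ^ 2 * y + 13334883 / 1250000 * x ^ 2 + 72391 / 6250 * x * y ^ 2 + (-283773 / 12500) * x * y + 1574091 / 31250 * x + 661843 / 12500 * y ^ 2 + (-78473 / 3125) * y + 1320041 / 15625) := by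
    unfold er Af kf
    ring
  have h3 : 0 ≤ er (10 + x) (2 + y) 3 z - 1 / 30 := by
    refine (mul_nonneg_iff_of_pos_left (mul_pos (by norm_num : (0 : ℝ) < 12) hk)).1 ?_
    rw [h]
    exact add_nonneg (sq_nonneg _) hP
  linarith

/-- the case `b = 4` -/
theorem ev4 (x y z : ℝ) (hx : 0 ≤ x) (_hy : 0 ≤ y) (_hz : 0 ≤ z) :
    1 / 30 ≤ er (10 + x) (2 + y) 4 z := by
  have h2 : 0 < 8053 / 12500 * x ^ 2 + 72391 / 6250 * x + 661843 / 12500 := by positivity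
  have hD : 0 ≤ 244539891 / 7812500000 * x ^ 6 + 7344760959 / 3906250000 * x ^ 5 + 87410704257 / 1953125000 * x ^ 4 + 1063431186787 / 1953125000 * x ^ 3 + 3488111917657 / 976562500 * x ^ 2 + 580863688309 / 48828125 * x + 753276563442 / 48828125 := by positivity
  have hQ : 4 * (8053 / 12500 * x ^ 2 + 72391 / 6250 * x + 661843 / 12500) * (250819 / 5000000 * x ^ 4 + (-313 / 1000) * x ^ 3 * y + 1886819 / 1250000 * x ^ 3 + 8053 / 12500 * x ^ 2 * y ^ 2 + (-173069 / 25000) * x ^ 2 * y + 20629011 / 1250000 * x ^ 2 + 72391 / 6250 * x * y ^ 2 + (-121433 / 2500) * x * y + 2388289 / 31250 * x + 661843 / 12500 * y ^ 2 + (-64129 / 625) * y + 1914869 / 15625) =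
      (2 * (8053 / 12500 * x ^ 2 + 72391 / 6250 * x + 661843 / 12500) * y + ((-313 / 1000) * x ^ 3 + (-173069 / 25000) * x ^ 2 + (-121433 / 2500) * x + (-64129 / 625))) ^ 2 +
      (244539891 / 7812500000 * x ^ 6 + 7344760959 / 3906250000 * x ^ 5 + 87410704257 / 1953125000 * x ^ 4 + 1063431186787 / 1953125000 * x ^ 3 + 3488111917657 / 976562500 * x ^ 2 + 580863688309 / 48828125 * x + 753276563442 / 48828125) := by ring
  have hP : 0 ≤ 250819 / 5000000 * x ^ 4 + (-313 / 1000) * x ^ 3 * y + 1886819 / 1250000 * x ^ 3 + 8053 / 12500 * x ^ 2 * y ^ 2 + (-173069 / 25000) * x ^ 2 * y + 20629011 / 1250000 * x ^ 2 + 72391 / 6250 * x * y ^ 2 + (-121433 / 2500) * x * y + 2388289 / 31250 * x + 661843 / 12500 * y ^ 2 + (-64129 / 625) * y + 1914869 / 15625 := by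
    refine (mul_nonneg_iff_of_pos_left (mul_pos four_pos h2)).1 ?_
    rw [hQ]
    exact add_nonneg (sq_nonneg _) hD
  have hk : 0 < 27 / 1000 * x ^ 2 + 61 / 125 * x + 279 / 125 := by positivity
  have h : 12 * (27 / 1000 * x ^ 2 + 61 / 125 * x + 279 / 125) * (er (10 + x) (2 + y) 4 z - 1 / 30) =
      (6 * (27 / 1000 * x ^ 2 + 61 / 125 * x + 279 / 125) * z - (313 / 1000 * x ^ 2 + 1 / 2 * x * y + 3029 / 500 * x + 229 / 50 * y + 3659 / 125)) ^ 2 +
      (250819 / 5000000 * x ^ 4 + (-313 / 1000) * x ^ 3 * y + 1886819 / 1250000 * x ^ 3 + 8053 / 12500 * x ^ 2 * y ^ 2 + (-173069 / 25000) * x ^ 2 * y + 20629011 / 1250000 * x ^ 2 + 72391 / 6250 * x * y ^ 2 + (-121433 / 2500) * x * y + 2388289 / 31250 * x + 661843 / 12500 * y ^ 2 + (-64129 / 625) * y + 1914869 / 15625) := by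
    unfold er Af kf
    ring
  have h3 : 0 ≤ er (10 + x) (2 + y) 4 z - 1 / 30 := by
    refine (mul_nonneg_iff_of_pos_left (mul_pos (by norm_num : (0 : ℝ) < 12) hk)).1 ?_
    rw [h]
    exact add_nonneg (sq_nonneg _) hP
  linarith

/-- the case `b = 5` -/
theorem ev5 (x y z : ℝ) (hx : 0 ≤ x) (_hy : 0 ≤ y) (_hz : 0 ≤ z) :
    1 / 30 ≤ er (10 + x) (2 + y) 5 z := by
  have h2 : 0 < 8053 / 12500 * x ^ 2 + 72391 / 6250 * x + 661843 / 12500 := by positivity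
  have hD : 0 ≤ 3494583 / 1562500000 * x ^ 6 + 55548243 / 156250000 * x ^ 5 + 4388505933 / 390625000 * x ^ 4 + 58241895779 / 390625000 * x ^ 3 + 181960734869 / 195312500 * x ^ 2 + 948435749 / 390625 * x + 2290714434 / 1953125 := by positivity
  have hQ : 4 * (8053 / 12500 * x ^ 2 + 72391 / 6250 * x + 661843 / 12500) * (69647 / 1000000 * x ^ 4 + (-421 / 1000) * x ^ 3 * y + 522963 / 250000 * x ^ 3 + 8053 / 12500 * x ^ 2 * y ^ 2 + (-49061 / 5000) * x ^ 2 * y + 5678167 / 250000 * x ^ 2 + 72391 / 6250 * x * y ^ 2 + (-930557 / 12500) * x * y + 646009 / 6250 * x + 661843 / 12500 * y ^ 2 + (-562817 / 3125) * y + 495913 / 3125) =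
      (2 * (8053 / 12500 * x ^ 2 + 72391 / 6250 * x + 661843 / 12500) * y + ((-421 / 1000) * x ^ 3 + (-49061 / 5000) * x ^ 2 + (-930557 / 12500) * x + (-562817 / 3125))) ^ 2 +
      (3494583 / 1562500000 * x ^ 6 + 55548243 / 156250000 * x ^ 5 + 4388505933 / 390625000 * x ^ 4 + 58241895779 / 390625000 * x ^ 3 + 181960734869 / 195312500 * x ^ 2 + 948435749 / 390625 * x + 2290714434 / 1953125) := by ring
  have hP : 0 ≤ 69647 / 1000000 * x ^ 4 + (-421 / 1000) * x ^ 3 * y + 522963 / 250000 * x ^ 3 + 8053 / 12500 * x ^ 2 * y ^ 2 + (-49061 / 5000) * x ^ 2 * y + 5678167 / 250000 * x ^ 2 + 72391 / 6250 * x * y ^ 2 + (-930557 / 12500) * x * y + 646009 / 6250 * x + 661843 / 12500 * y ^ 2 + (-562817 / 3125) * y + 495913 / 3125 := by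
    refine (mul_nonneg_iff_of_pos_left (mul_pos four_pos h2)).1 ?_
    rw [hQ]
    exact add_nonneg (sq_nonneg _) hD
  have hk : 0 < 27 / 1000 * x ^ 2 + 61 / 125 * x + 279 / 125 := by positivity
  have h : 12 * (27 / 1000 * x ^ 2 + 61 / 125 * x + 279 / 125) * (er (10 + x) (2 + y) 5 z - 1 / 30) =
      (6 * (27 / 1000 * x ^ 2 + 61 / 125 * x + 279 / 125) * z - (421 / 1000 * x ^ 2 + 1 / 2 * x * y + 801 / 100 * x + 229 / 50 * y + 191 / 5)) ^ 2 +
      (69647 / 1000000 * x ^ 4 + (-421 / 1000) * x ^ 3 * y + 522963 / 250000 * x ^ 3 + 8053 / 12500 * x ^ 2 * y ^ 2 + (-49061 / 5000) * x ^ 2 * y + 5678167 / 250000 * x ^ 2 + 72391 / 6250 * x * y ^ 2 + (-930557 / 12500) * x * y + 646009 / 6250 * x + 661843 / 12500 * y ^ 2 + (-562817 / 3125) * y + 495913 / 3125) := by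
    unfold er Af kf
    ring
  have h3 : 0 ≤ er (10 + x) (2 + y) 5 z - 1 / 30 := by
    refine (mul_nonneg_iff_of_pos_left (mul_pos (by norm_num : (0 : ℝ) < 12) hk)).1 ?_
    rw [h]
    exact add_nonneg (sq_nonneg _) hP
  linarith

theorem evn (g : ℕ) (hg : 4 ≤ g) (a b : ℕ) (ha : 2 ≤ a) (hb : b ≤ 5) (y : ℝ) (hy0 : 0 ≤ y)
    (hy : y ≤ b) : 1 / 30 ≤ ed g 11 (Af (2 * g + 2)) (137 / 50)
      (((2 * g + 2 : ℝ) - 1) / 2 + 2 / 25) (kf (2 * g + 2)) a b y := by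
  rw [ed_eq]
  have hg' : (4 : ℝ) ≤ g := by exact_mod_cast hg
  have ha' : (2 : ℝ) ≤ a := by exact_mod_cast ha
  obtain ⟨x, hx⟩ : ∃ x : ℝ, x = 2 * g - 8 := ⟨_, rfl⟩
  obtain ⟨v, hv⟩ : ∃ v : ℝ, v = a - 2 := ⟨_, rfl⟩
  obtain ⟨z, hz⟩ : ∃ z : ℝ, z = b - y := ⟨_, rfl⟩
  have hx0 : 0 ≤ x := by rw [hx]; linarith
  have hv0 : 0 ≤ v := by rw [hv]; linarith
  have hz0 : 0 ≤ z := by rw [hz]; linarith
  have h1 : (2 * g + 2 : ℝ) = 10 + x := by rw [hx]; ring
  have h2 : (a : ℝ) = 2 + v := by rw [hv]; ring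
  rw [← hz, h1, h2]
  interval_cases b
  · have hz1 : z = 0 := by
      have : z ≤ 0 := by rw [hz]; push_cast; linarith
      linarith
    rw [hz1]
    unfold er
    push_cast
    nlinarith [mul_nonneg hv0 hv0]
  · have h := ev1 x v z hx0 hv0 hz0
    simpa using h
  · have h := ev2 x v z hx0 hv0 hz0
    simpa using h
  · have h := ev3 x v z hx0 hv0 hz0
    simpa using h
  · have h := ev4 x v z hx0 hv0 hz0
    simpa using h
  · have h := ev5 x v z hx0 hv0 hz0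
    simpa using h

theorem odd0 (g : ℕ) (hg : 4 ≤ g) (a b : ℕ) (ha : Odd a) (hb : b ≤ 5) (hab : 2 ≤ a + b) :
    1 / 30 ≤ w1 g 11 (Af (2 * g + 2)) a b := by
  have hg' : (4 : ℝ) ≤ g := by exact_mod_cast hg
  obtain ⟨G, hG⟩ : ∃ G : ℝ, G = (g : ℝ) := ⟨_, rfl⟩
  rw [← hG] at hg'
  obtain ⟨v, hv⟩ : ∃ v : ℝ, v = (a : ℝ) := ⟨_, rfl⟩
  unfold w1 w0 gm Af
  rw [← hG, ← hv]
  push_cast
  interval_cases b
  · have h3 : 3 ≤ a := by
      rcases ha with ⟨i, hi⟩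
      omega
    have h3' : (3 : ℝ) ≤ v := by rw [hv]; exact_mod_cast h3
    nlinarith
  all_goals norm_num
  · nlinarith [sq_nonneg (v - 1 / 2 - (2 * G + 1) * 1 / 11), mul_nonneg (sub_nonneg.2 hg') (sub_nonneg.2 hg')]
  · nlinarith [sq_nonneg (v - 1 / 2 - (2 * G + 1) * 2 / 11), mul_nonneg (sub_nonneg.2 hg') (sub_nonneg.2 hg')]
  · nlinarith [sq_nonneg (v - 1 / 2 - (2 * G + 1) * 3 / 11), mul_nonneg (sub_nonneg.2 hg') (sub_nonneg.2 hg')]
  · nlinarith [sq_nonneg (v - 1 / 2 - (2 * G + 1) * 4 / 11), mul_nonneg (sub_nonneg.2 hg') (sub_nonneg.2 hg')]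
  · nlinarith [sq_nonneg (v - 1 / 2 - (2 * G + 1) * 5 / 11), mul_nonneg (sub_nonneg.2 hg') (sub_nonneg.2 hg')]

/-- NU4 -/
theorem nu4 (hS : SywStmt) : Nu4Stmt := by
  intro g hg
  have hg' : (4 : ℝ) ≤ g := by exact_mod_cast hg
  obtain ⟨x, hx⟩ : ∃ x : ℝ, x = 2 * g - 8 := ⟨_, rfl⟩
  have hx0 : 0 ≤ x := by rw [hx]; linarith
  have h1 : (2 * g + 2 : ℝ) = 10 + x := by rw [hx]; ring
  have h1g : (g : ℝ) = 4 + x / 2 := by rw [hx]; ring
  refine ⟨Af (2 * g + 2), 137 / 50, ((2 * g + 2 : ℝ) - 1) / 2 + 2 / 25, kf (2 * g + 2), ?_⟩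
  refine ⟨by omega, by norm_num, by norm_num, ?_, ?_, by norm_num, ?_, ?_, ?_, ?_, ?_⟩
  · rw [h1]; unfold Af; positivity
  · rw [h1g]; unfold Af; nlinarith
  · rw [h1]; unfold kf; nlinarith
  · rw [h1]; unfold kf; nlinarith
  · intro a b ha hag hb hab hlt
    by_cases h5 : b ≤ 5
    · exact odd0 g hg a b ha h5 hab
    · have hb5 : 11 - b ≤ 5 := by omega
      have h2 := odd0 g hg (2 * g + 2 - a) (11 - b) (by
        rcases ha with ⟨i, hi⟩
        exact ⟨g - i, by omega⟩) hb5 (by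
        by_cases h11 : b = 11
        · have : a ≠ 2 * g + 1 := fun h => by
            have := hlt h
            omega
          rcases ha with ⟨i, hi⟩
          omega
        · omega)
      have h3 := hS g 11 (Af (2 * g + 2)) a b (by norm_num)
      rw [Nat.cast_sub (by omega), Nat.cast_sub hb] at h2
      push_cast at h2 h3
      rw [h3] at h2
      exact h2
  · intro a b ha ha2 _ hb y hy0 hy
    exact evn g hg a b ha2 (by omega) y hy0 hy
  · intro q hq0 hq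
    push_cast at hq ⊢
    unfold qf
    rw [h1]
    obtain ⟨D, hD⟩ : ∃ D : ℝ, D = 11 - q := ⟨_, rfl⟩
    have hk : 0 < kf (10 + x) := by unfold kf; nlinarith
    have hP : 0 ≤ 9387 / 1000000 * x ^ 4 + 60063 / 250000 * x ^ 3 + 523867 / 250000 * x ^ 2 + 8169 / 1250 * x + 1367 / 625 := by positivity
    have h : 4 * kf (10 + x) * (137 / 50 * (10 + x) ^ 2 - (((10 + x) - 1) / 2 + 2 / 25) * (10 + x) * (11 - q) +
        kf (10 + x) * (11 - q) ^ 2 - Af (10 + x) * q) =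
        (2 * kf (10 + x) * (11 - q) - ((((10 + x) - 1) / 2 + 2 / 25) * (10 + x) - Af (10 + x))) ^ 2 +
        (9387 / 1000000 * x ^ 4 + 60063 / 250000 * x ^ 3 + 523867 / 250000 * x ^ 2 + 8169 / 1250 * x + 1367 / 625) := by
      unfold kf Af
      ring
    have h3 : 0 ≤ 137 / 50 * (10 + x) ^ 2 - (((10 + x) - 1) / 2 + 2 / 25) * (10 + x) * (11 - q) +
        kf (10 + x) * (11 - q) ^ 2 - Af (10 + x) * q := by
      refine (mul_nonneg_iff_of_pos_left (mul_pos four_pos hk)).1 ?_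
      rw [h]
      exact add_nonneg (sq_nonneg _) hP
    linarith

end Pool.Agent.MNW.H32.Nu4
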