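import Pool.Agent.MNW.StmtsT

set_option autoImplicit false

/-!
# MNW, row NU9: the numerical conditions for `m = 9`, `g ≥ 14`
-/

namespace Pool.Agent.MNW.H32.Nu9

open Pool.Agent.MNW

/-- `A` as a function of `n = 2 g + 2` -/
noncomputable def Af (n : ℝ) : ℝ := (133 * n ^ 2 + 220 * n) / 1000

/-- `k` as a function of `n` -/
noncomputable def kf (n : ℝ) : ℝ := (331 * n ^ 2 - 540 * n - 380) / 10000

/-- `ed` with `z = b - y` -/
noncomputable def er (n a b z : ℝ) : ℝ :=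
  113 / 50 * a ^ 2 - 9 / 2 * a + 19 / 100 * a * (2 * b - z) +
    ((n ^ 2 - n) / 2 - Af n) / 8 * b * (b - 1) +
    z * (Af n - (n - 1) * a / 2 - 4 * kf n * b + 3 * kf n * z)

theorem ed_eq (g : ℕ) (a b y : ℝ) :
    ed g 9 (Af (2 * g + 2)) (56 / 25) (((2 * g + 2 : ℝ) - 1) / 2 + 19 / 100) (kf (2 * g + 2)) a b y =
      er (2 * g + 2) a b (b - y) := by
  unfold ed w1 w0 gm qf er Af kf
  push_cast
  ring

/-- the case `b = 1` -/
theorem ev1 (x y z : ℝ) (hx : 0 ≤ x) (hy : 0 ≤ y) (hz : 0 ≤ z) :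
    1 / 30 ≤ er (30 + x) (2 + y) 1 z := by
  have hP : 0 ≤ 80959 / 125000 * x ^ 2 * y ^ 2 + 89139 / 62500 * x ^ 2 * y + 3217 / 125000 * x ^ 2 + 471323 / 12500 * x * y ^ 2 + 259202 / 3125 * x * y + 20193 / 15625 * x + 27357187 / 50000 * y ^ 2 + 7514689 / 6250 * y + 237574 / 15625 := by
    positivity
  have hk : 0 < 331 / 10000 * x ^ 2 + 483 / 250 * x + 7033 / 250 := by positivity
  have hE : 0 ≤ 3 / 5000 * x ^ 2 := by positivity
  have h : 12 * (331 / 10000 * x ^ 2 + 483 / 250 * x + 7033 / 250) * (er (30 + x) (2 + y) 1 z - 1 / 30 - (3 / 5000 * x ^ 2) * z) =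
      (6 * (331 / 10000 * x ^ 2 + 483 / 250 * x + 7033 / 250) * z - (1 / 2 * x * y + 66 / 125 * x + 1469 / 100 * y + 1951 / 125)) ^ 2 +
      (80959 / 125000 * x ^ 2 * y ^ 2 + 89139 / 62500 * x ^ 2 * y + 3217 / 125000 * x ^ 2 + 471323 / 12500 * x * y ^ 2 + 259202 / 3125 * x * y + 20193 / 15625 * x + 27357187 / 50000 * y ^ 2 + 7514689 / 6250 * y + 237574 / 15625) := by
    unfold er Af kf
    ring
  have h3 : 0 ≤ er (30 + x) (2 + y) 1 z - 1 / 30 - (3 / 5000 * x ^ 2) * z := by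
    refine (mul_nonneg_iff_of_pos_left (mul_pos (by norm_num : (0 : ℝ) < 12) hk)).1 ?_
    rw [h]
    exact add_nonneg (sq_nonneg _) hP
  have h4 := mul_nonneg hE hz
  linarith

/-- the case `b = 2` -/
theorem ev2 (x y z : ℝ) (hx : 0 ≤ x) (_hy : 0 ≤ y) (_hz : 0 ≤ z) :
    1 / 30 ≤ er (30 + x) (2 + y) 2 z := by
  have h2 : 0 < 80959 / 125000 * x ^ 2 + 471323 / 12500 * x + 27357187 / 50000 := by positivity
  have hD : 0 ≤ 50059373187 / 1562500000000 * x ^ 6 + 872905238007 / 156250000000 * x ^ 5 + 252821322777433 / 625000000000 * x ^ 4 + 486472837956421 / 31250000000 * x ^ 3 + 10493231943870343 / 31250000000 * x ^ 2 + 1503401483440637 / 390625000 * x + 14305289943053603 / 781250000 := by positivity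
  have hQ : 4 * (80959 / 125000 * x ^ 2 + 471323 / 12500 * x + 27357187 / 50000) * (953593 / 50000000 * x ^ 4 + (-659 / 5000) * x ^ 3 * y + 5164851 / 2500000 * x ^ 3 + 80959 / 125000 * x ^ 2 * y ^ 2 + (-2505781 / 250000) * x ^ 2 * y + 209375621 / 2500000 * x ^ 2 + 471323 / 12500 * x * y ^ 2 + (-774444 / 3125) * x * y + 47077269 / 31250 * x + 27357187 / 50000 * y ^ 2 + (-12346503 / 6250) * y + 634349309 / 62500) =
      (2 * (80959 / 125000 * x ^ 2 + 471323 / 12500 * x + 27357187 / 50000) * y + ((-659 / 5000) * x ^ 3 + (-2505781 / 250000) * x ^ 2 + (-774444 / 3125) * x + (-12346503 / 6250))) ^ 2 +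
      (50059373187 / 1562500000000 * x ^ 6 + 872905238007 / 156250000000 * x ^ 5 + 252821322777433 / 625000000000 * x ^ 4 + 486472837956421 / 31250000000 * x ^ 3 + 10493231943870343 / 31250000000 * x ^ 2 + 1503401483440637 / 390625000 * x + 14305289943053603 / 781250000) := by ring
  have hP : 0 ≤ 953593 / 50000000 * x ^ 4 + (-659 / 5000) * x ^ 3 * y + 5164851 / 2500000 * x ^ 3 + 80959 / 125000 * x ^ 2 * y ^ 2 + (-2505781 / 250000) * x ^ 2 * y + 209375621 / 2500000 * x ^ 2 + 471323 / 12500 * x * y ^ 2 + (-774444 / 3125) * x * y + 47077269 / 31250 * x + 27357187 / 50000 * y ^ 2 + (-12346503 / 6250) * y + 634349309 / 62500 := by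
    refine (mul_nonneg_iff_of_pos_left (mul_pos four_pos h2)).1 ?_
    rw [hQ]
    exact add_nonneg (sq_nonneg _) hD
  have hk : 0 < 331 / 10000 * x ^ 2 + 483 / 250 * x + 7033 / 250 := by positivity
  have h : 12 * (331 / 10000 * x ^ 2 + 483 / 250 * x + 7033 / 250) * (er (30 + x) (2 + y) 2 z - 1 / 30) =
      (6 * (331 / 10000 * x ^ 2 + 483 / 250 * x + 7033 / 250) * z - (659 / 5000 * x ^ 2 + 1 / 2 * x * y + 1032 / 125 * x + 1469 / 100 * y + 16017 / 125)) ^ 2 +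
      (953593 / 50000000 * x ^ 4 + (-659 / 5000) * x ^ 3 * y + 5164851 / 2500000 * x ^ 3 + 80959 / 125000 * x ^ 2 * y ^ 2 + (-2505781 / 250000) * x ^ 2 * y + 209375621 / 2500000 * x ^ 2 + 471323 / 12500 * x * y ^ 2 + (-774444 / 3125) * x * y + 47077269 / 31250 * x + 27357187 / 50000 * y ^ 2 + (-12346503 / 6250) * y + 634349309 / 62500) := by
    unfold er Af kf
    ring
  have h3 : 0 ≤ er (30 + x) (2 + y) 2 z - 1 / 30 := by
    refine (mul_nonneg_iff_of_pos_left (mul_pos (by norm_num : (0 : ℝ) < 12) hk)).1 ?_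
    rw [h]
    exact add_nonneg (sq_nonneg _) hP
  linarith

/-- the case `b = 3` -/
theorem ev3 (x y z : ℝ) (hx : 0 ≤ x) (_hy : 0 ≤ y) (_hz : 0 ≤ z) :
    1 / 30 ≤ er (30 + x) (2 + y) 3 z := by
  have h2 : 0 < 80959 / 125000 * x ^ 2 + 471323 / 12500 * x + 27357187 / 50000 := by positivity
  have hD : 0 ≤ 50940928797 / 1562500000000 * x ^ 6 + 890052597777 / 156250000000 * x ^ 5 + 258796033937563 / 625000000000 * x ^ 4 + 500895648958111 / 31250000000 * x ^ 3 + 10889862713649013 / 31250000000 * x ^ 2 + 1575914700475727 / 390625000 * x + 15179971198759913 / 781250000 := by positivity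
  have hQ : 4 * (80959 / 125000 * x ^ 2 + 471323 / 12500 * x + 27357187 / 50000) * (1976383 / 50000000 * x ^ 4 + (-1321 / 5000) * x ^ 3 * y + 10701801 / 2500000 * x ^ 3 + 80959 / 125000 * x ^ 2 * y ^ 2 + (-214901 / 10000) * x ^ 2 * y + 433748191 / 2500000 * x ^ 2 + 471323 / 12500 * x * y ^ 2 + (-361618 / 625) * x * y + 97501479 / 31250 * x + 27357187 / 50000 * y ^ 2 + (-6441539 / 1250) * y + 1313244799 / 62500) =
      (2 * (80959 / 125000 * x ^ 2 + 471323 / 12500 * x + 27357187 / 50000) * y + ((-1321 / 5000) * x ^ 3 + (-214901 / 10000) * x ^ 2 + (-361618 / 625) * x + (-6441539 / 1250))) ^ 2 +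
      (50940928797 / 1562500000000 * x ^ 6 + 890052597777 / 156250000000 * x ^ 5 + 258796033937563 / 625000000000 * x ^ 4 + 500895648958111 / 31250000000 * x ^ 3 + 10889862713649013 / 31250000000 * x ^ 2 + 1575914700475727 / 390625000 * x + 15179971198759913 / 781250000) := by ring
  have hP : 0 ≤ 1976383 / 50000000 * x ^ 4 + (-1321 / 5000) * x ^ 3 * y + 10701801 / 2500000 * x ^ 3 + 80959 / 125000 * x ^ 2 * y ^ 2 + (-214901 / 10000) * x ^ 2 * y + 433748191 / 2500000 * x ^ 2 + 471323 / 12500 * x * y ^ 2 + (-361618 / 625) * x * y + 97501479 / 31250 * x + 27357187 / 50000 * y ^ 2 + (-6441539 / 1250) * y + 1313244799 / 62500 := by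
    refine (mul_nonneg_iff_of_pos_left (mul_pos four_pos h2)).1 ?_
    rw [hQ]
    exact add_nonneg (sq_nonneg _) hD
  have hk : 0 < 331 / 10000 * x ^ 2 + 483 / 250 * x + 7033 / 250 := by positivity
  have h : 12 * (331 / 10000 * x ^ 2 + 483 / 250 * x + 7033 / 250) * (er (30 + x) (2 + y) 3 z - 1 / 30) =
      (6 * (331 / 10000 * x ^ 2 + 483 / 250 * x + 7033 / 250) * z - (1321 / 5000 * x ^ 2 + 1 / 2 * x * y + 1998 / 125 * x + 1469 / 100 * y + 30083 / 125)) ^ 2 +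
      (1976383 / 50000000 * x ^ 4 + (-1321 / 5000) * x ^ 3 * y + 10701801 / 2500000 * x ^ 3 + 80959 / 125000 * x ^ 2 * y ^ 2 + (-214901 / 10000) * x ^ 2 * y + 433748191 / 2500000 * x ^ 2 + 471323 / 12500 * x * y ^ 2 + (-361618 / 625) * x * y + 97501479 / 31250 * x + 27357187 / 50000 * y ^ 2 + (-6441539 / 1250) * y + 1313244799 / 62500) := by
    unfold er Af kf
    ring
  have h3 : 0 ≤ er (30 + x) (2 + y) 3 z - 1 / 30 := by
    refine (mul_nonneg_iff_of_pos_left (mul_pos (by norm_num : (0 : ℝ) < 12) hk)).1 ?_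
    rw [h]
    exact add_nonneg (sq_nonneg _) hP
  linarith

/-- the case `b = 4` -/
theorem ev4 (x y z : ℝ) (hx : 0 ≤ x) (_hy : 0 ≤ y) (_hz : 0 ≤ z) :
    1 / 30 ≤ er (30 + x) (2 + y) 4 z := by
  have h2 : 0 < 80959 / 125000 * x ^ 2 + 471323 / 12500 * x + 27357187 / 50000 := by positivity
  have hD : 0 ≤ 660661767 / 390625000000 * x ^ 6 + 25709675679 / 78125000000 * x ^ 5 + 8345106779051 / 312500000000 * x ^ 4 + 18047948129327 / 15625000000 * x ^ 3 + 438380201458691 / 15625000000 * x ^ 2 + 35406848613887 / 97656250 * x + 760315088580931 / 390625000 := by positivity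
  have hQ : 4 * (80959 / 125000 * x ^ 2 + 471323 / 12500 * x + 27357187 / 50000) * (47943 / 781250 * x ^ 4 + (-1983 / 5000) * x ^ 3 * y + 8306217 / 1250000 * x ^ 3 + 80959 / 125000 * x ^ 2 * y ^ 2 + (-8239269 / 250000) * x ^ 2 * y + 336614437 / 1250000 * x ^ 2 + 471323 / 12500 * x * y ^ 2 + (-2841736 / 3125) * x * y + 75656508 / 15625 * x + 27357187 / 50000 * y ^ 2 + (-52068887 / 6250) * y + 1018818383 / 31250) =
      (2 * (80959 / 125000 * x ^ 2 + 471323 / 12500 * x + 27357187 / 50000) * y + ((-1983 / 5000) * x ^ 3 + (-8239269 / 250000) * x ^ 2 + (-2841736 / 3125) * x + (-52068887 / 6250))) ^ 2 +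
      (660661767 / 390625000000 * x ^ 6 + 25709675679 / 78125000000 * x ^ 5 + 8345106779051 / 312500000000 * x ^ 4 + 18047948129327 / 15625000000 * x ^ 3 + 438380201458691 / 15625000000 * x ^ 2 + 35406848613887 / 97656250 * x + 760315088580931 / 390625000) := by ring
  have hP : 0 ≤ 47943 / 781250 * x ^ 4 + (-1983 / 5000) * x ^ 3 * y + 8306217 / 1250000 * x ^ 3 + 80959 / 125000 * x ^ 2 * y ^ 2 + (-8239269 / 250000) * x ^ 2 * y + 336614437 / 1250000 * x ^ 2 + 471323 / 12500 * x * y ^ 2 + (-2841736 / 3125) * x * y + 75656508 / 15625 * x + 27357187 / 50000 * y ^ 2 + (-52068887 / 6250) * y + 1018818383 / 31250 := by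
    refine (mul_nonneg_iff_of_pos_left (mul_pos four_pos h2)).1 ?_
    rw [hQ]
    exact add_nonneg (sq_nonneg _) hD
  have hk : 0 < 331 / 10000 * x ^ 2 + 483 / 250 * x + 7033 / 250 := by positivity
  have h : 12 * (331 / 10000 * x ^ 2 + 483 / 250 * x + 7033 / 250) * (er (30 + x) (2 + y) 4 z - 1 / 30) =
      (6 * (331 / 10000 * x ^ 2 + 483 / 250 * x + 7033 / 250) * z - (1983 / 5000 * x ^ 2 + 1 / 2 * x * y + 2964 / 125 * x + 1469 / 100 * y + 44149 / 125)) ^ 2 +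
      (47943 / 781250 * x ^ 4 + (-1983 / 5000) * x ^ 3 * y + 8306217 / 1250000 * x ^ 3 + 80959 / 125000 * x ^ 2 * y ^ 2 + (-8239269 / 250000) * x ^ 2 * y + 336614437 / 1250000 * x ^ 2 + 471323 / 12500 * x * y ^ 2 + (-2841736 / 3125) * x * y + 75656508 / 15625 * x + 27357187 / 50000 * y ^ 2 + (-52068887 / 6250) * y + 1018818383 / 31250) := by
    unfold er Af kf
    ring
  have h3 : 0 ≤ er (30 + x) (2 + y) 4 z - 1 / 30 := by
    refine (mul_nonneg_iff_of_pos_left (mul_pos (by norm_num : (0 : ℝ) < 12) hk)).1 ?_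
    rw [h]
    exact add_nonneg (sq_nonneg _) hP
  linarith

theorem evn (g : ℕ) (hg : 14 ≤ g) (a b : ℕ) (ha : 2 ≤ a) (hb : b ≤ 4) (y : ℝ) (hy0 : 0 ≤ y)
    (hy : y ≤ b) : 1 / 30 ≤ ed g 9 (Af (2 * g + 2)) (56 / 25)
      (((2 * g + 2 : ℝ) - 1) / 2 + 19 / 100) (kf (2 * g + 2)) a b y := by
  rw [ed_eq]
  have hg' : (14 : ℝ) ≤ g := by exact_mod_cast hg
  have ha' : (2 : ℝ) ≤ a := by exact_mod_cast ha
  obtain ⟨x, hx⟩ : ∃ x : ℝ, x = 2 * g - 28 := ⟨_, rfl⟩
  obtain ⟨v, hv⟩ : ∃ v : ℝ, v = a - 2 := ⟨_, rfl⟩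
  obtain ⟨z, hz⟩ : ∃ z : ℝ, z = b - y := ⟨_, rfl⟩
  have hx0 : 0 ≤ x := by rw [hx]; linarith
  have hv0 : 0 ≤ v := by rw [hv]; linarith
  have hz0 : 0 ≤ z := by rw [hz]; linarith
  have h1 : (2 * g + 2 : ℝ) = 30 + x := by rw [hx]; ring
  have h2 : (a : ℝ) = 2 + v := by rw [hv]; ring
  rw [← hz, h1, h2]
  interval_cases b
  · have hz1 : z = 0 := by
      have : z ≤ 0 := by rw [hz]; push_cast; linarith
      linarith
    rw [hz1]
    unfold er
    push_cast
    nlinarith [mul_nonneg hv0 hv0]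
  · have h := ev1 x v z hx0 hv0 hz0
    simpa using h
  · have h := ev2 x v z hx0 hv0 hz0
    simpa using h
  · have h := ev3 x v z hx0 hv0 hz0
    simpa using h
  · have h := ev4 x v z hx0 hv0 hz0
    simpa using h

theorem odd0 (g : ℕ) (hg : 14 ≤ g) (a b : ℕ) (ha : Odd a) (hb : b ≤ 4) (hab : 2 ≤ a + b) :
    1 / 30 ≤ w1 g 9 (Af (2 * g + 2)) a b := by
  have hg' : (14 : ℝ) ≤ g := by exact_mod_cast hg
  obtain ⟨G, hG⟩ : ∃ G : ℝ, G = (g : ℝ) := ⟨_, rfl⟩
  rw [← hG] at hg'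
  obtain ⟨v, hv⟩ : ∃ v : ℝ, v = (a : ℝ) := ⟨_, rfl⟩
  unfold w1 w0 gm Af
  rw [← hG, ← hv]
  push_cast
  interval_cases b
  · have h3 : 3 ≤ a := by
      rcases ha with ⟨i, hi⟩
      omega
    have h3' : (3 : ℝ) ≤ v := by rw [hv]; exact_mod_cast h3
    nlinarith
  all_goals norm_num
  · nlinarith [sq_nonneg (v - 1 / 2 - (2 * G + 1) * 1 / 9), mul_nonneg (sub_nonneg.2 hg') (sub_nonneg.2 hg')]
  · nlinarith [sq_nonneg (v - 1 / 2 - (2 * G + 1) * 2 / 9), mul_nonneg (sub_nonneg.2 hg') (sub_nonneg.2 hg')]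
  · nlinarith [sq_nonneg (v - 1 / 2 - (2 * G + 1) * 3 / 9), mul_nonneg (sub_nonneg.2 hg') (sub_nonneg.2 hg')]
  · nlinarith [sq_nonneg (v - 1 / 2 - (2 * G + 1) * 4 / 9), mul_nonneg (sub_nonneg.2 hg') (sub_nonneg.2 hg')]

/-- NU9 -/
theorem nu9 (hS : SywStmt) : Nu9Stmt := by
  intro g hg
  have hg' : (14 : ℝ) ≤ g := by exact_mod_cast hg
  obtain ⟨x, hx⟩ : ∃ x : ℝ, x = 2 * g - 28 := ⟨_, rfl⟩
  have hx0 : 0 ≤ x := by rw [hx]; linarith
  have h1 : (2 * g + 2 : ℝ) = 30 + x := by rw [hx]; ring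
  have h1g : (g : ℝ) = 14 + x / 2 := by rw [hx]; ring
  refine ⟨Af (2 * g + 2), 56 / 25, ((2 * g + 2 : ℝ) - 1) / 2 + 19 / 100, kf (2 * g + 2), ?_⟩
  refine ⟨by omega, by norm_num, by norm_num, ?_, ?_, by norm_num, ?_, ?_, ?_, ?_, ?_⟩
  · rw [h1]; unfold Af; positivity
  · rw [h1g]; unfold Af; nlinarith
  · rw [h1]; unfold kf; nlinarith
  · rw [h1]; unfold kf; nlinarith
  · intro a b ha hag hb hab hlt
    by_cases h5 : b ≤ 4
    · exact odd0 g hg a b ha h5 hab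
    · have hb5 : 9 - b ≤ 4 := by omega
      have h2 := odd0 g hg (2 * g + 2 - a) (9 - b) (by
        rcases ha with ⟨i, hi⟩
        exact ⟨g - i, by omega⟩) hb5 (by
        by_cases h11 : b = 9
        · have : a ≠ 2 * g + 1 := fun h => by
            have := hlt h
            omega
          rcases ha with ⟨i, hi⟩
          omega
        · omega)
      have h3 := hS g 9 (Af (2 * g + 2)) a b (by norm_num)
      rw [Nat.cast_sub (by omega), Nat.cast_sub hb] at h2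
      push_cast at h2 h3
      rw [h3] at h2
      exact h2
  · intro a b ha ha2 _ hb y hy0 hy
    exact evn g hg a b ha2 (by omega) y hy0 hy
  · intro q hq0 hq
    push_cast at hq ⊢
    unfold qf
    rw [h1]
    obtain ⟨D, hD⟩ : ∃ D : ℝ, D = 9 - q := ⟨_, rfl⟩
    have hk : 0 < kf (30 + x) := by unfold kf; nlinarith
    have hP : 0 ≤ 17021 / 5000000 * x ^ 4 + 77521 / 250000 * x ^ 3 + 2378281 / 250000 * x ^ 2 + 63447 / 625 * x + 61569 / 625 := by positivity
    have h : 4 * kf (30 + x) * (56 / 25 * (30 + x) ^ 2 - (((30 + x) - 1) / 2 + 19 / 100) * (30 + x) * (9 - q) +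
        kf (30 + x) * (9 - q) ^ 2 - Af (30 + x) * q) =
        (2 * kf (30 + x) * (9 - q) - ((((30 + x) - 1) / 2 + 19 / 100) * (30 + x) - Af (30 + x))) ^ 2 +
        (17021 / 5000000 * x ^ 4 + 77521 / 250000 * x ^ 3 + 2378281 / 250000 * x ^ 2 + 63447 / 625 * x + 61569 / 625) := by
      unfold kf Af
      ring
    have h3 : 0 ≤ 56 / 25 * (30 + x) ^ 2 - (((30 + x) - 1) / 2 + 19 / 100) * (30 + x) * (9 - q) +
        kf (30 + x) * (9 - q) ^ 2 - Af (30 + x) * q := by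
      refine (mul_nonneg_iff_of_pos_left (mul_pos four_pos hk)).1 ?_
      rw [h]
      exact add_nonneg (sq_nonneg _) hP
    linarith

end Pool.Agent.MNW.H32.Nu9
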